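import Pool.Agent.N993.WX.Stm

set_option autoImplicit false

namespace Pool.Agent.N993.WX

open Pool.Agent.N993.WT (RW)
open Pool.Agent.N993.WU (NoRep)

open Classical in
theorem card_slice {I α : Type} [Fintype I] [Fintype α] (ℓ : I → ℕ) (t : I)
    (P : (Fin (ℓ t) → α) → Prop) :
    Nat.card {w : ∀ t, Fin (ℓ t) → α // P (w t)} * Nat.card α ^ (ℓ t) =
      Nat.card {x : Fin (ℓ t) → α // P x} * Nat.card (∀ t, Fin (ℓ t) → α) := by
  let e := Equiv.piSplitAt t (fun t => Fin (ℓ t) → α)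
  have h1 : Nat.card (∀ t, Fin (ℓ t) → α) =
      Nat.card α ^ (ℓ t) * Nat.card (∀ j : {j // j ≠ t}, Fin (ℓ j) → α) := by
    rw [Nat.card_congr e, Nat.card_prod]
    simp
  have h2 : Nat.card {w : ∀ t, Fin (ℓ t) → α // P (w t)} =
      Nat.card {x : Fin (ℓ t) → α // P x} *
        Nat.card (∀ j : {j // j ≠ t}, Fin (ℓ j) → α) := by
    rw [← Nat.card_prod]
    refine Nat.card_congr ((e.subtypeEquiv (q := fun p => P p.1) ?_).trans
      (Equiv.prodSubtypeFstEquivSubtypeProd))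
    intro w
    rfl
  rw [h1, h2]
  ring

open Classical in
/-- almost all families of random words are hereditarily good -/
theorem rare (hT : S_TAIL) (hR : S_REP) (n : ℕ) (hn : 2 ≤ n) (m : ℕ) (c : Fin m → ℕ)
    (hc : ∀ j, 0 < c j) (ℓ : ((j : Fin m) × Fin (c j)) → ℕ) (μ K : ℕ) (hμ : 1 ≤ μ) :
    (Nat.card {u : ∀ t, Fin (ℓ t) → Fin n × Bool //
        ¬ Hereditary (fun t => List.ofFn (u t)) μ K} : ℝ) ≤
      2 ^ n * (2 * (∑ t, (ℓ t : ℝ)) ^ 2 / 3 ^ μ +
        2 ^ K * ∑ t, (1 - 1 / (4 * (n : ℝ))) ^ (ℓ t)) *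
        Nat.card (∀ t, Fin (ℓ t) → Fin n × Bool) := by
  set Ω := ∀ t, Fin (ℓ t) → Fin n × Bool with hΩ
  set N : ℝ := (Nat.card Ω : ℝ) with hN
  have hN0 : 0 ≤ N := by positivity
  have hn0 : (2 : ℝ) ≤ n := by exact_mod_cast hn
  -- the pieces
  let A : Finset (Fin n) → ((j : Fin m) × Fin (c j)) → Finset Ω := fun Y t =>
    Finset.univ.filter fun u => (red Y (List.ofFn (u t))).length < K
  let B : Finset (Fin n) → Finset Ω := fun Y =>
    Finset.univ.filter fun u =>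
      ¬ NoRep (fun t => frw ((List.ofFn (u t)).filter fun y => y.1 ∈ Y)) μ
  have hA : ∀ Y : Finset (Fin n), 2 ≤ Y.card → ∀ t,
      ((A Y t).card : ℝ) ≤ 2 ^ K * (1 - 1 / (4 * (n : ℝ))) ^ (ℓ t) * N := by
    intro Y hY t
    have h1 : (A Y t).card = Nat.card {u : Ω // (red Y (List.ofFn (u t))).length < K} := by
      rw [Nat.card_eq_fintype_card, Fintype.card_subtype]
    have h2 := card_slice (α := Fin n × Bool) ℓ t (fun x => (red Y (List.ofFn x)).length < K)
    have h3 := hT n (ℓ t) K Y hY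
    have h0 : (Nat.card (Fin n × Bool) : ℝ) = 2 * n := by
      simp [mul_comm]
    have h4 : ((A Y t).card : ℝ) * (2 * (n : ℝ)) ^ (ℓ t) ≤
        2 ^ K * (2 * (n : ℝ) - 1 / 2) ^ (ℓ t) * N := by
      have h5 : ((A Y t).card : ℝ) * (Nat.card (Fin n × Bool) : ℝ) ^ (ℓ t) =
          (Nat.card {x : Fin (ℓ t) → Fin n × Bool // (red Y (List.ofFn x)).length < K} : ℝ) * N := by
        rw [h1]
        have h6 := congrArg (Nat.cast : ℕ → ℝ) h2
        rw [Nat.cast_mul, Nat.cast_mul, Nat.cast_pow] at h6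
        exact h6
      rw [h0] at h5
      rw [h5]
      exact mul_le_mul_of_nonneg_right h3 hN0
    have h7 : (1 - 1 / (4 * (n : ℝ))) ^ (ℓ t) * (2 * (n : ℝ)) ^ (ℓ t) =
        (2 * (n : ℝ) - 1 / 2) ^ (ℓ t) := by
      rw [← mul_pow]
      congr 1
      have : (n : ℝ) ≠ 0 := by linarith
      field_simp
      ring
    have h8 : (0 : ℝ) < (2 * (n : ℝ)) ^ (ℓ t) := by positivity
    refine le_of_mul_le_mul_right ?_ h8
    calc ((A Y t).card : ℝ) * (2 * (n : ℝ)) ^ (ℓ t) ≤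
        2 ^ K * (2 * (n : ℝ) - 1 / 2) ^ (ℓ t) * N := h4
      _ = 2 ^ K * (1 - 1 / (4 * (n : ℝ))) ^ (ℓ t) * N * (2 * (n : ℝ)) ^ (ℓ t) := by
        rw [← h7]; ring
  have hB : ∀ Y : Finset (Fin n), 2 ≤ Y.card →
      ((B Y).card : ℝ) ≤ 2 * (∑ t, (ℓ t : ℝ)) ^ 2 / 3 ^ μ * N := by
    intro Y hY
    have h1 : (B Y).card = Nat.card {u : Ω //
        ¬ NoRep (fun t => frw ((List.ofFn (u t)).filter fun y => y.1 ∈ Y)) μ} := by
      rw [Nat.card_eq_fintype_card, Fintype.card_subtype]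
    have h2 := hR n m c hc Y hY ℓ μ hμ
    rw [div_mul_eq_mul_div, le_div_iff₀ (by positivity), h1]
    exact h2
  have hcover : (Finset.univ.filter fun u : Ω => ¬ Hereditary (fun t => List.ofFn (u t)) μ K) ⊆
      (Finset.univ.filter fun Y : Finset (Fin n) => 2 ≤ Y.card).biUnion fun Y =>
        (Finset.univ.biUnion fun t => A Y t) ∪ B Y := by
    intro u hu
    simp only [Finset.mem_filter, Finset.mem_univ, true_and] at hu
    unfold Hereditary at hu
    push Not at hu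
    obtain ⟨Y, hY, h⟩ := hu
    simp only [Finset.mem_biUnion, Finset.mem_filter, Finset.mem_univ, true_and, Finset.mem_union]
    refine ⟨Y, hY, ?_⟩
    by_cases h1 : ∀ t, K ≤ (red Y (List.ofFn (u t))).length
    · right
      simp only [B, Finset.mem_filter, Finset.mem_univ, true_and]
      exact h h1
    · left
      push Not at h1
      obtain ⟨t, ht⟩ := h1
      refine ⟨t, ?_⟩
      simp only [A, Finset.mem_filter, Finset.mem_univ, true_and]
      exact ht
  have h1 : (Nat.card {u : Ω // ¬ Hereditary (fun t => List.ofFn (u t)) μ K} : ℝ) ≤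
      ∑ Y ∈ (Finset.univ.filter fun Y : Finset (Fin n) => 2 ≤ Y.card),
        (2 ^ K * (∑ t, (1 - 1 / (4 * (n : ℝ))) ^ (ℓ t)) * N +
          2 * (∑ t, (ℓ t : ℝ)) ^ 2 / 3 ^ μ * N) := by
    have h2 : Nat.card {u : Ω // ¬ Hereditary (fun t => List.ofFn (u t)) μ K} =
        (Finset.univ.filter fun u : Ω => ¬ Hereditary (fun t => List.ofFn (u t)) μ K).card := by
      rw [Nat.card_eq_fintype_card, Fintype.card_subtype]
    rw [h2]
    refine (Nat.cast_le.mpr (Finset.card_le_card hcover)).trans ?_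
    refine (Nat.cast_le.mpr Finset.card_biUnion_le).trans ?_
    rw [Nat.cast_sum]
    refine Finset.sum_le_sum ?_
    intro Y hY
    simp only [Finset.mem_filter, Finset.mem_univ, true_and] at hY
    refine (Nat.cast_le.mpr (Finset.card_union_le _ _)).trans ?_
    rw [Nat.cast_add]
    refine add_le_add ?_ (hB Y hY)
    refine (Nat.cast_le.mpr Finset.card_biUnion_le).trans ?_
    rw [Nat.cast_sum]
    refine (Finset.sum_le_sum fun t _ => hA Y hY t).trans ?_
    rw [← Finset.sum_mul, ← Finset.mul_sum]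
  refine h1.trans ?_
  rw [Finset.sum_const, nsmul_eq_mul]
  have h3 : ((Finset.univ.filter fun Y : Finset (Fin n) => 2 ≤ Y.card).card : ℝ) ≤ 2 ^ n := by
    have h4 : (Finset.univ.filter fun Y : Finset (Fin n) => 2 ≤ Y.card).card ≤ 2 ^ n := by
      refine (Finset.card_le_univ _).trans ?_
      rw [Fintype.card_finset, Fintype.card_fin]
    exact_mod_cast h4
  have h5 : (0 : ℝ) ≤ 1 - 1 / (4 * (n : ℝ)) := by
    have : 1 / (4 * (n : ℝ)) ≤ 1 := by
      rw [div_le_one (by linarith)]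
      linarith
    linarith
  have h6 : 0 ≤ 2 ^ K * (∑ t, (1 - 1 / (4 * (n : ℝ))) ^ (ℓ t)) * N +
      2 * (∑ t, (ℓ t : ℝ)) ^ 2 / 3 ^ μ * N := by
    have h7 : 0 ≤ ∑ t, (1 - 1 / (4 * (n : ℝ))) ^ (ℓ t) :=
      Finset.sum_nonneg fun t _ => pow_nonneg h5 _
    positivity
  refine (mul_le_mul_of_nonneg_right h3 h6).trans (le_of_eq ?_)
  ring

end Pool.Agent.N993.WX
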