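import Pool.Agent.N993.WX.Main
import Pool.Agent.N323.WX.TAIL
import Pool.Agent.N562.WX.UNIF
import Pool.Agent.N222.WX.CNTY
import Pool.Agent.N499.WX.REP

set_option autoImplicit false

namespace Pool.Agent.N993.WX

open Pool.Agent.N993.WT (DR Gen word)
open Pool.Agent.N993.WV (left)

/-- almost all -/
theorem final {m : ℕ} (hm : 1 ≤ m) (c : Fin m → ℕ) (hc : ∀ j, 0 < c j)
    (ℓ : ((j : Fin m) × Fin (c j)) → ℕ) (μ : ℕ) (hμ : 1 ≤ μ) :
    (Nat.card {u : ∀ t, Fin (ℓ t) → Fin (m + 1) × Bool // ¬ ∀ (ε : Fin m → Bool)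
        (a : ((j : Fin m) × Fin (c j)) → Fin (m + 1) × Bool),
        (∀ j k, (a ⟨j, k⟩).1 ≤ j.castSucc) →
        (∀ z : PresentedGroup (Set.range (fun e => word
            (wrel ε a (fun t => FreeGroup.reduce (List.ofFn (u t))) e)) ∪
          {(FreeGroup.of (Sum.inl 0) : FreeGroup (Gen (m + 1) c))}), z = 1) ∧
        ∀ T : Set (Fin m ⊕ ((j : Fin m) × Fin (c j))),
          DR (fun e : T => wrel ε a (fun t => FreeGroup.reduce (List.ofFn (u t))) e) ∧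
          DR (fun e : left a T =>
            hat ε a (fun t => FreeGroup.reduce (List.ofFn (u t))) T e)} : ℝ) ≤
      2 ^ (m + 1) * (2 * (∑ t, (ℓ t : ℝ)) ^ 2 / 3 ^ μ +
        2 ^ (27 * (μ + 1)) * ∑ t, (1 - 1 / (4 * ((m : ℝ) + 1))) ^ (ℓ t)) *
        Nat.card (∀ t, Fin (ℓ t) → Fin (m + 1) × Bool) :=
  main Pool.Agent.N323.WX.t_tail
    (Pool.Agent.N499.WX.t_rep Pool.Agent.N562.WX.t_unif Pool.Agent.N222.WX.t_cnty) hm c hc ℓ μ hμ

end Pool.Agent.N993.WX
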