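import Pool.Agent.N993.WX.Stm
import Pool.Agent.N993.WV.HatMain

set_option autoImplicit false

namespace Pool.Agent.N993.WX

open Pool.Agent.N993.WT (SphericalDiagram DR RW Gen word)
open Pool.Agent.N993.WU (NoRep)
open Pool.Agent.N993.WV

/-- The relators `x_(j+1)^(±1) ∏_k s_(j,k) x_(a(j,k))^(±1) s_(j,k)⁻¹` (with `x_(j+1)^(±1)` given by the sign
`ε j` and `x_(a(j,k))^(±1)` by `a`), and `s_t⁻¹ w_t`: so `x_(j+1)^(±1)` times the product of the
conjugates of the `x_(a(j,k))^(±1)` by the words `w_(j,k)` is made trivial. -/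
def wrel {m : ℕ} {c : Fin m → ℕ} (ε : Fin m → Bool)
    (a : ((j : Fin m) × Fin (c j)) → Fin (m + 1) × Bool)
    (w : ((j : Fin m) × Fin (c j)) → List (Fin (m + 1) × Bool)) :
    Fin m ⊕ ((j : Fin m) × Fin (c j)) → List (Gen (m + 1) c × Bool)
  | Sum.inl j => (Sum.inl j.succ, ε j) :: (List.ofFn fun k : Fin (c j) =>
      [(Sum.inr ⟨j, k⟩, true), (Sum.inl (a ⟨j, k⟩).1, (a ⟨j, k⟩).2),
        (Sum.inr ⟨j, k⟩, false)]).flatten
  | Sum.inr t => (Sum.inr t, false) :: (w t).map fun y => (Sum.inl y.1, y.2)

open Classical in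
/-- The same relators after all letters of killed generators are deleted and the words are freely
reduced. -/
noncomputable def hat {m : ℕ} {c : Fin m → ℕ} (ε : Fin m → Bool)
    (a : ((j : Fin m) × Fin (c j)) → Fin (m + 1) × Bool)
    (w : ((j : Fin m) × Fin (c j)) → List (Fin (m + 1) × Bool))
    (T : Set (Fin m ⊕ ((j : Fin m) × Fin (c j)))) :
    Fin m ⊕ ((j : Fin m) × Fin (c j)) → List (Gen (m + 1) c × Bool)
  | Sum.inl j => (Sum.inl j.succ, ε j) :: (List.ofFn fun k : Fin (c j) =>
      if Killed a T (a ⟨j, k⟩).1 then [] else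
      [(Sum.inr ⟨j, k⟩, true), (Sum.inl (a ⟨j, k⟩).1, (a ⟨j, k⟩).2),
        (Sum.inr ⟨j, k⟩, false)]).flatten
  | Sum.inr t => (Sum.inr t, false) ::
      (FreeGroup.reduce ((w t).filter fun y => ¬ Killed a T y.1)).map fun y => (Sum.inl y.1, y.2)

/-- deletion of letters is compatible with free reduction -/
theorem red_filter {n : ℕ} (p : Fin n → Bool) {u v : List (Fin n × Bool)}
    (h : FreeGroup.Red u v) :
    FreeGroup.Red (u.filter fun y => p y.1) (v.filter fun y => p y.1) := by
  induction h with
  | refl => exact FreeGroup.Red.refl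
  | tail _ h2 ih =>
    refine ih.trans ?_
    rcases h2 with @⟨L₁, L₂, x, b⟩
    simp only [List.filter_append, List.filter_cons]
    by_cases hx : p x = true
    · simp only [hx, if_true]
      exact FreeGroup.Red.Step.to_red FreeGroup.Red.Step.not
    · simp only [hx]
      exact FreeGroup.Red.refl

theorem reduce_filter_reduce {n : ℕ} (p : Fin n → Bool) (u : List (Fin n × Bool)) :
    FreeGroup.reduce ((FreeGroup.reduce u).filter fun y => p y.1) =
      FreeGroup.reduce (u.filter fun y => p y.1) :=
  (FreeGroup.reduce.eq_of_red (red_filter p FreeGroup.reduce.red)).symm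

theorem ofFn_frw {n : ℕ} (u : List (Fin n × Bool)) {β : Type} (f : Fin n × Bool → β) :
    (List.ofFn fun i => f ((frw u).1 i)) = (FreeGroup.reduce u).map f := by
  apply List.ext_getElem
  · simp
  · intro i h h'
    simp [frw]

section

variable {m : ℕ} {c : Fin m → ℕ} (ε : Fin m → Bool)
    (a : ((j : Fin m) × Fin (c j)) → Fin (m + 1) × Bool)
    (u : ((j : Fin m) × Fin (c j)) → List (Fin (m + 1) × Bool))
    (T : Set (Fin m ⊕ ((j : Fin m) × Fin (c j))))

/-- the words -/
noncomputable def gJ (t : (i : Fin (LJ a T).length) × Fin (cJ a T i)) :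
    RW (m + 1) (red (YY a T) (u (tJ a T t))).length :=
  frw ((u (tJ a T t)).filter fun y => y.1 ∈ YY a T)

/-- the relators which are left, without superfluous names -/
noncomputable def relJ : Fin (LJ a T).length ⊕ ((i : Fin (LJ a T).length) × Fin (cJ a T i)) →
    List (Gen (m + 1) (cJ a T) × Bool) :=
  Pool.Agent.N993.WT.rel (fun i => ((eJ a T i).succ, ε (eJ a T i))) (fun t => a (tJ a T t))
    (gJ a u T)

theorem hat_inl (w : ((j : Fin m) × Fin (c j)) → List (Fin (m + 1) × Bool))
    (i : Fin (LJ a T).length) : hat ε a w T (Sum.inl (eJ a T i)) =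
    (relJ ε a u T (Sum.inl i)).map fun y => (phi a T y.1, y.2) := by
  simp only [hat, relJ, Pool.Agent.N993.WT.rel]
  rw [flatten_filter (fun k => Killed a T (a ⟨eJ a T i, k⟩).1)]
  rw [List.map_cons, List.map_flatten, List.map_ofFn]
  rfl

open Classical in
theorem hat_inr (t : (i : Fin (LJ a T).length) × Fin (cJ a T i)) :
    hat ε a (fun t => FreeGroup.reduce (u t)) T (Sum.inr (tJ a T t)) =
    (relJ ε a u T (Sum.inr t)).map fun y => (phi a T y.1, y.2) := by
  simp only [hat, relJ, Pool.Agent.N993.WT.rel]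
  rw [List.map_cons, List.map_ofFn]
  have h := ofFn_frw ((u (tJ a T t)).filter fun y => y.1 ∈ YY a T)
    (fun y => ((Sum.inl y.1 : Gen (m + 1) c), y.2))
  have h1 : (List.ofFn ((fun y : Gen (m + 1) (cJ a T) × Bool => (phi a T y.1, y.2)) ∘ fun i =>
      (Sum.inl ((gJ a u T t).1 i).1, ((gJ a u T t).1 i).2))) =
      (red (YY a T) (u (tJ a T t))).map fun y => ((Sum.inl y.1 : Gen (m + 1) c), y.2) := h
  rw [h1]
  have h2 : FreeGroup.reduce ((FreeGroup.reduce (u (tJ a T t))).filter
      fun y => ¬ Killed a T y.1) = red (YY a T) (u (tJ a T t)) := by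
    have h3 := reduce_filter_reduce (fun x => decide (x ∈ YY a T)) (u (tJ a T t))
    unfold red
    rw [← h3]
    congr 1
    apply List.filter_congr
    intro x _
    simp [mem_YY]
  rw [h2]
  rfl

theorem hat_dr (hT : S_TRANS) (hO : S_ONCE) (ha : ∀ j k, (a ⟨j, k⟩).1 ≤ j.castSucc) (μ : ℕ)
    (hμ : 1 ≤ μ) (hw : Hereditary u μ (27 * (μ + 1))) :
    DR (fun e : left a T => hat ε a (fun t => FreeGroup.reduce (u t)) T e) := by
  -- the part of the relators without superfluous names
  let T' : Set (Fin (LJ a T).length ⊕ ((i : Fin (LJ a T).length) × Fin (cJ a T i))) :=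
    {e | ∀ t, e = Sum.inr t → Sum.inr (tJ a T t) ∈ T}
  have hdr : DR (fun e : T' => relJ ε a u T e) := by
    refine dr_single (cJ_pos a T) _ _ μ hμ ?_ (gJ a u T) ?_ T'
    · intro t
      exact (hw (YY a T) (card_YY a T ha t)).1 (tJ a T t)
    · intro t t' i i' h h'
      obtain ⟨h1, h2⟩ := (hw (YY a T) (card_YY a T ha t)).2 (tJ a T t) (tJ a T t') i i' h h'
      refine ⟨fun h3 => ?_, h2⟩
      obtain ⟨h4, h5⟩ := h1 h3
      exact ⟨tJ_inj a T h4, h5⟩
  let ι : T' → left a T := fun e => match e with
    | ⟨Sum.inl i, _⟩ => ⟨Sum.inl (eJ a T i), (eJ_mem a T i).1, fun j hj => by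
        have := Sum.inl.inj hj
        subst this
        exact (eJ_mem a T i).2⟩
    | ⟨Sum.inr t, ht⟩ => ⟨Sum.inr (tJ a T t), ht t rfl, fun j hj => by simp at hj⟩
  have hι : Function.Injective ι := by
    rintro ⟨e, he⟩ ⟨e', he'⟩ h
    rcases e with i | t <;> rcases e' with i' | t'
    · have h1 := congrArg Subtype.val h
      have h2 : eJ a T i = eJ a T i' := Sum.inl.inj h1
      have h3 := eJ_inj a T h2
      subst h3
      rfl
    · have h1 := congrArg Subtype.val h
      simp [ι] at h1
    · have h1 := congrArg Subtype.val h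
      simp [ι] at h1
    · have h1 := congrArg Subtype.val h
      have h2 : tJ a T t = tJ a T t' := Sum.inr.inj h1
      have h3 := tJ_inj a T h2
      subst h3
      rfl
  intro D hD
  refine hT (Gen (m + 1) c) (left a T) (Gen (m + 1) (cJ a T)) T'
    (fun e : left a T => hat ε a (fun t => FreeGroup.reduce (u t)) T e)
    (fun e : T' => relJ ε a u T e) (phi a T) ι
    (phi_inj a T) hι ?_ hdr D ?_ hD
  · rintro ⟨e, he⟩
    rcases e with i | t
    · exact hat_inl ε a u T _ i
    · exact hat_inr ε a u T t
  · intro d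
    rcases hcell : D.cell d with ⟨e, he⟩
    rcases e with j | t
    · obtain ⟨i, hi⟩ := eJ_surj a T j he.1 (he.2 j rfl)
      refine ⟨⟨Sum.inl i, fun t ht => by simp at ht⟩, ?_⟩
      apply Subtype.ext
      simp only [ι]
      rw [hi]
    · by_cases h : Sum.inl t.1 ∈ T ∧ ¬ Killed a T t.1.succ ∧ ¬ Killed a T (a t).1
      · obtain ⟨t', ht'⟩ := tJ_surj a T t h.1 h.2.1 h.2.2
        refine ⟨⟨Sum.inr t', fun t'' ht'' => ?_⟩, ?_⟩
        · have := Sum.inr.inj ht''
          subst this
          rw [ht']
          exact he.1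
        · apply Subtype.ext
          simp only [ι]
          rw [ht']
      · exfalso
        refine hO (Gen (m + 1) c) (left a T)
          (fun e : left a T => hat ε a (fun t => FreeGroup.reduce (u t)) T e)
          ⟨Sum.inr t, he⟩ 0 (Sum.inr t) ⟨false, by simp [hat]⟩ ?_ D hD d hcell
        rintro ⟨e', he'⟩ p' b' hp
        rcases e' with j' | t'
        · exfalso
          apply h
          have hmem := List.mem_of_getElem? hp
          simp only [hat, List.mem_cons, List.mem_flatten, List.mem_ofFn] at hmem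
          rcases hmem with h1 | ⟨l, ⟨k, hk⟩, hl⟩
          · simp at h1
          · by_cases hkk : Killed a T (a ⟨j', k⟩).1
            · rw [if_pos hkk] at hk
              subst hk
              simp at hl
            · rw [if_neg hkk] at hk
              subst hk
              have ht : t = ⟨j', k⟩ := by
                simp at hl
                rcases hl with h2 | h2 <;> exact h2.1
              subst ht
              exact ⟨he'.1, he'.2 j' rfl, hkk⟩
        · simp only [hat] at hp
          rcases p' with _ | p'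
          · simp at hp
            refine ⟨?_, rfl⟩
            apply Subtype.ext
            simp [hp.1]
          · exfalso
            rw [List.getElem?_cons_succ] at hp
            have hmem := List.mem_of_getElem? hp
            simp at hmem

end

end Pool.Agent.N993.WX
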