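import Pool.Agent.N993.WX.Asm
import Pool.Agent.N993.WX.Hat
import Pool.Agent.N434.WT.TRIV
import Pool.Agent.N776.WV.Trans
import Pool.Agent.N7.WV.ONCE

set_option autoImplicit false

namespace Pool.Agent.N993.WX

open Pool.Agent.N993.WT (SphericalDiagram DR RW Gen word)
open Pool.Agent.N993.WU (NoRep)
open Pool.Agent.N993.WV (Killed left dr_single)

theorem noRep_frw {n : ℕ} {I : Type} (w w' : I → List (Fin n × Bool)) (h : ∀ t, w t = w' t) (μ : ℕ)
    (hw : NoRep (fun t => frw (w t)) μ) : NoRep (fun t => frw (w' t)) μ := by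
  have : w = w' := funext h
  subst this
  exact hw

theorem wrel_eq {m : ℕ} {c : Fin m → ℕ} (ε : Fin m → Bool)
    (a : ((j : Fin m) × Fin (c j)) → Fin (m + 1) × Bool)
    (u : ((j : Fin m) × Fin (c j)) → List (Fin (m + 1) × Bool)) :
    wrel ε a (fun t => FreeGroup.reduce (u t)) =
      Pool.Agent.N993.WT.rel (fun j => (j.succ, ε j)) a (fun t => frw (u t)) := by
  funext e
  rcases e with j | t
  · rfl
  · simp only [wrel, Pool.Agent.N993.WT.rel]
    rw [ofFn_frw (u t) (fun y => ((Sum.inl y.1 : Gen (m + 1) c), y.2))]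

theorem wrel_dr {m : ℕ} (hm : 1 ≤ m) {c : Fin m → ℕ} (hc : ∀ j, 0 < c j) (ε : Fin m → Bool)
    (a : ((j : Fin m) × Fin (c j)) → Fin (m + 1) × Bool)
    (u : ((j : Fin m) × Fin (c j)) → List (Fin (m + 1) × Bool))
    (T : Set (Fin m ⊕ ((j : Fin m) × Fin (c j)))) (μ : ℕ) (hμ : 1 ≤ μ)
    (hw : Hereditary u μ (27 * (μ + 1))) :
    DR (fun e : T => wrel ε a (fun t => FreeGroup.reduce (u t)) e) := by
  rw [wrel_eq]
  obtain ⟨h1, h2⟩ := hw Finset.univ (by simp; omega)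
  have h3 : ∀ t, ((u t).filter fun y => y.1 ∈ (Finset.univ : Finset (Fin (m + 1)))) = u t := by
    intro t
    simp
  refine dr_single hc _ _ μ hμ (fun t => ?_) _ (noRep_frw _ _ h3 μ h2) T
  have := h1 t
  unfold red at this
  rwa [h3] at this

theorem wrel_triv {m : ℕ} {c : Fin m → ℕ} (ε : Fin m → Bool)
    (a : ((j : Fin m) × Fin (c j)) → Fin (m + 1) × Bool)
    (ha : ∀ j k, (a ⟨j, k⟩).1 ≤ j.castSucc)
    (u : ((j : Fin m) × Fin (c j)) → List (Fin (m + 1) × Bool)) :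
    ∀ z : PresentedGroup (Set.range
      (fun e => word (wrel ε a (fun t => FreeGroup.reduce (u t)) e)) ∪
      {(FreeGroup.of (Sum.inl 0) : FreeGroup (Gen (m + 1) c))}), z = 1 := by
  rw [wrel_eq]
  exact Pool.Agent.N434.WTT.t_TRIV m c (fun j => (j.succ, ε j)) a _ _ (fun j => rfl)
    (fun j k => lt_of_le_of_lt (ha j k) (by simp [Fin.lt_def]))

/-- almost all -/
theorem main (hT : S_TAIL) (hR : S_REP) {m : ℕ} (hm : 1 ≤ m) (c : Fin m → ℕ) (hc : ∀ j, 0 < c j)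
    (ℓ : ((j : Fin m) × Fin (c j)) → ℕ) (μ : ℕ) (hμ : 1 ≤ μ) :
    (Nat.card {u : ∀ t, Fin (ℓ t) → Fin (m + 1) × Bool // ¬ ∀ (ε : Fin m → Bool)
        (a : ((j : Fin m) × Fin (c j)) → Fin (m + 1) × Bool),
        (∀ j k, (a ⟨j, k⟩).1 ≤ j.castSucc) →
        (∀ z : PresentedGroup (Set.range (fun e => word
            (wrel ε a (fun t => FreeGroup.reduce (List.ofFn (u t))) e)) ∪
          {(FreeGroup.of (Sum.inl 0) : FreeGroup (Gen (m + 1) c))}), z = 1) ∧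
        ∀ T : Set (Fin m ⊕ ((j : Fin m) × Fin (c j))),
          DR (fun e : T => wrel ε a (fun t => FreeGroup.reduce (List.ofFn (u t))) e) ∧
          DR (fun e : left a T =>
            hat ε a (fun t => FreeGroup.reduce (List.ofFn (u t))) T e)} : ℝ) ≤
      2 ^ (m + 1) * (2 * (∑ t, (ℓ t : ℝ)) ^ 2 / 3 ^ μ +
        2 ^ (27 * (μ + 1)) * ∑ t, (1 - 1 / (4 * ((m : ℝ) + 1))) ^ (ℓ t)) *
        Nat.card (∀ t, Fin (ℓ t) → Fin (m + 1) × Bool) := by
  have h1 := rare hT hR (m + 1) (by omega) m c hc ℓ μ (27 * (μ + 1)) hμ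
  push_cast at h1
  refine le_trans ?_ h1
  rw [Nat.cast_le]
  refine Nat.card_le_card_of_injective (fun x => ⟨x.1, fun hw => x.2 ?_⟩) ?_
  · intro ε a ha
    refine ⟨wrel_triv ε a ha _, fun T => ⟨?_, ?_⟩⟩
    · exact wrel_dr hm hc ε a _ T μ hμ hw
    · exact hat_dr ε a _ T Pool.Agent.N776.WV.t_TRANS Pool.Agent.N7.WV.t_once ha μ hμ hw
  · intro x y hxy
    simp only [Subtype.mk.injEq] at hxy
    exact Subtype.ext hxy

end Pool.Agent.N993.WX
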