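import Pool.Agent.N993.WV.Stm

set_option autoImplicit false

/-!
Random words in the letters `x_i^(±1)` (random walks in the free group): the reduced words which
remain when all letters outside a set `Y` are deleted are long and have no repetitions.
-/

namespace Pool.Agent.N993.WX

open Pool.Agent.N993.WT (RW)
open Pool.Agent.N993.WU (NoRep)

/-- the word which remains when the letters outside `Y` are deleted, freely reduced -/
def red {n : ℕ} (Y : Finset (Fin n)) (u : List (Fin n × Bool)) : List (Fin n × Bool) :=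
  FreeGroup.reduce (u.filter fun y => y.1 ∈ Y)

/-- a word, freely reduced -/
def frw {n : ℕ} (u : List (Fin n × Bool)) : RW n (FreeGroup.reduce u).length :=
  ⟨fun i => (FreeGroup.reduce u)[i], fun i j hij h => by
    have hi := i.2
    have hj := j.2
    have h1 : FreeGroup.reduce u = (FreeGroup.reduce u).take i ++
        (FreeGroup.reduce u)[(i : ℕ)] :: (FreeGroup.reduce u)[(i : ℕ) + 1]'(by omega) ::
          (FreeGroup.reduce u).drop (i + 2) := by
      conv_lhs => rw [← List.take_append_drop i (FreeGroup.reduce u)]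
      congr 1
      rw [List.drop_eq_getElem_cons hi, List.drop_eq_getElem_cons (by omega : (i : ℕ) + 1 < _)]
    have h2 : (FreeGroup.reduce u)[(i : ℕ) + 1]'(by omega) =
        (((FreeGroup.reduce u)[(i : ℕ)]).1, !((FreeGroup.reduce u)[(i : ℕ)]).2) := by
      have h3 : (FreeGroup.reduce u)[(j : ℕ)] = (FreeGroup.reduce u)[(i : ℕ) + 1]'(by omega) := by
        congr 1
      rw [← h3]
      exact h
    rw [h2] at h1
    exact FreeGroup.reduce.not h1⟩

/-- For every set `Y` of at least two generators, the words `u t` with the letters outside `Y`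
deleted and freely reduced have length at least `K` and have no repetitions of length `μ`. -/
def Hereditary {n : ℕ} {I : Type} (u : I → List (Fin n × Bool)) (μ K : ℕ) : Prop :=
  ∀ Y : Finset (Fin n), 2 ≤ Y.card →
    (∀ t, K ≤ (red Y (u t)).length) ∧
      NoRep (fun t => frw ((u t).filter fun y => y.1 ∈ Y)) μ

/-- few words have short reductions -/
def S_TAIL : Prop := ∀ (n ℓ K : ℕ) (Y : Finset (Fin n)), 2 ≤ Y.card →
  (Nat.card {u : Fin ℓ → Fin n × Bool // (red Y (List.ofFn u)).length < K} : ℝ) ≤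
    2 ^ K * (2 * n - 1 / 2) ^ ℓ

/-- the number of words with a given reduction depends only on the length of the reduction -/
def S_UNIF : Prop := ∀ (n ℓ k : ℕ) (Y : Finset (Fin n)) (g g' : RW n k),
  (∀ i, (g.1 i).1 ∈ Y) → (∀ i, (g'.1 i).1 ∈ Y) →
  Nat.card {u : Fin ℓ → Fin n × Bool // red Y (List.ofFn u) = List.ofFn g.1} =
    Nat.card {u : Fin ℓ → Fin n × Bool // red Y (List.ofFn u) = List.ofFn g'.1}

/-- words in the generators `Y` with repetitions are rare -/
def S_CNTY : Prop := ∀ (n m : ℕ) (c : Fin m → ℕ), (∀ j, 0 < c j) → ∀ (Y : Finset (Fin n)),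
  2 ≤ Y.card → ∀ (k : ((j : Fin m) × Fin (c j)) → ℕ) (μ : ℕ), 1 ≤ μ →
  (Nat.card {g : ∀ t, RW n (k t) // (∀ t i, ((g t).1 i).1 ∈ Y) ∧ ¬ NoRep g μ} : ℝ) * 3 ^ μ ≤
    2 * (∑ t, (k t : ℝ)) ^ 2 * Nat.card {g : ∀ t, RW n (k t) // ∀ t i, ((g t).1 i).1 ∈ Y}

/-- words whose reductions have repetitions are rare -/
def S_REP : Prop := ∀ (n m : ℕ) (c : Fin m → ℕ), (∀ j, 0 < c j) → ∀ (Y : Finset (Fin n)),
  2 ≤ Y.card → ∀ (ℓ : ((j : Fin m) × Fin (c j)) → ℕ) (μ : ℕ), 1 ≤ μ →
  (Nat.card {u : ∀ t, Fin (ℓ t) → Fin n × Bool //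
      ¬ NoRep (fun t => frw ((List.ofFn (u t)).filter fun y => y.1 ∈ Y)) μ} : ℝ) * 3 ^ μ ≤
    2 * (∑ t, (ℓ t : ℝ)) ^ 2 * Nat.card (∀ t, Fin (ℓ t) → Fin n × Bool)

end Pool.Agent.N993.WX
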